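import Pool.Agent.helper52.OC.SpecA

/-!
# Project oc: OCV, conversions between cones in `G` and orders on `G ⧸ N`
-/

set_option autoImplicit false

namespace OC

theorem OCV_ord {Q : Type} [Group Q] (S : Set Q) (h1 : (1 : Q) ∉ S) (hm : ∀ a ∈ S, ∀ b ∈ S, a * b ∈ S)
    (hc : ∀ a ∈ S, ∀ g : Q, g⁻¹ * a * g ∈ S) (ht : ∀ a : Q, a ≠ 1 → a ∈ S ∨ a⁻¹ ∈ S) :
    BiOrder (fun a b : Q => a = b ∨ a⁻¹ * b ∈ S) := by
  refine ⟨fun a => Or.inl rfl, ?_, ?_, ?_, ?_⟩
  · rintro a b (h | h) h'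
    · exact h
    · rcases h' with h' | h'
      · exact h'.symm
      · exfalso
        apply h1
        have := hm _ h _ h'
        have e : a⁻¹ * b * (b⁻¹ * a) = 1 := by group
        rwa [e] at this
  · rintro a b c (h | h) (h' | h')
    · exact Or.inl (h.trans h')
    · right; rw [h]; exact h'
    · right; rw [← h']; exact h
    · right
      have := hm _ h _ h'
      have e : a⁻¹ * b * (b⁻¹ * c) = a⁻¹ * c := by group
      rwa [e] at this
  · intro a b
    by_cases hab : a = b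
    · exact Or.inl (Or.inl hab)
    · have hne : a⁻¹ * b ≠ 1 := by
        intro h
        exact hab (inv_mul_eq_one.1 h)
      rcases ht _ hne with h | h
      · exact Or.inl (Or.inr h)
      · right; right
        have e : (a⁻¹ * b)⁻¹ = b⁻¹ * a := by group
        rwa [e] at h
  · rintro a b c (h | h)
    · rw [h]; exact ⟨Or.inl rfl, Or.inl rfl⟩
    · refine ⟨Or.inr ?_, Or.inr ?_⟩
      · have e : (c * a)⁻¹ * (c * b) = a⁻¹ * b := by group
        rw [e]; exact h
      · have e : (a * c)⁻¹ * (b * c) = c⁻¹ * (a⁻¹ * b) * c := by group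
        rw [e]; exact hc _ h c

theorem OCV_q {G : Type} [Group G] (N : Subgroup G) [N.Normal] (P : Set G) (hP : QCone N P) :
    BiOrder (fun a b : G ⧸ N => a = b ∨ a⁻¹ * b ∈ (QuotientGroup.mk' N) '' P) := by
  apply OCV_ord
  · rintro ⟨g, hg, he⟩
    apply hP.dis g hg
    rwa [← QuotientGroup.ker_mk' N, MonoidHom.mem_ker]
  · rintro _ ⟨a, ha, rfl⟩ _ ⟨b, hb, rfl⟩
    exact ⟨a * b, hP.mul a ha b hb, map_mul _ _ _⟩
  · rintro _ ⟨a, ha, rfl⟩ g
    obtain ⟨g', rfl⟩ := QuotientGroup.mk'_surjective N g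
    exact ⟨g'⁻¹ * a * g', hP.conj a ha g', by simp only [map_mul, map_inv]⟩
  · intro x hx
    obtain ⟨g, rfl⟩ := QuotientGroup.mk'_surjective N x
    have hg : g ∉ N := by
      intro h
      apply hx
      rwa [← QuotientGroup.ker_mk' N, MonoidHom.mem_ker] at h
    rcases hP.tri g hg with h | h
    · exact Or.inl ⟨g, h, rfl⟩
    · exact Or.inr ⟨g⁻¹, h, map_inv _ _⟩

theorem OCV : OCV_stmt := by
  intro G _ N _
  refine ⟨?_, ?_, ?_⟩
  · rintro ⟨-, P, hP⟩
    exact ⟨_, OCV_q N P hP⟩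
  · intro P C hP hNC hC
    refine ⟨_, OCV_q N P hP, ?_⟩
    rintro h₁ hh₁ h₂ hh₂ g (h | h) (h' | h')
    · rw [← h]; exact hh₁
    · rw [← h]; exact hh₁
    · rw [h']; exact hh₂
    · obtain ⟨a, ha, hae⟩ := h
      obtain ⟨b, hb, hbe⟩ := h'
      obtain ⟨c₁, hc₁, hc₁e⟩ := Subgroup.mem_map.1 hh₁
      obtain ⟨c₂, hc₂, hc₂e⟩ := Subgroup.mem_map.1 hh₂
      have hab : QuotientGroup.mk' N (a * b) = QuotientGroup.mk' N (c₁⁻¹ * c₂) := by
        rw [map_mul, map_mul, hae, hbe, map_inv, hc₁e, hc₂e]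
        group
      have hab' : a * b ∈ C := by
        have h3 : (c₁⁻¹ * c₂)⁻¹ * (a * b) ∈ N := by
          rw [← QuotientGroup.ker_mk' N, MonoidHom.mem_ker, map_mul, map_inv, hab]
          group
        have h4 := C.mul_mem (C.mul_mem (C.inv_mem hc₁) hc₂) (hNC h3)
        have e : c₁⁻¹ * c₂ * ((c₁⁻¹ * c₂)⁻¹ * (a * b)) = a * b := by group
        rwa [e] at h4
      have ha' : a ∈ C := hC a ha b hb hab'
      refine Subgroup.mem_map.2 ⟨c₁ * a, C.mul_mem hc₁ ha', ?_⟩
      rw [map_mul, hae, hc₁e]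
      group
  · rintro K hK ⟨r, ⟨hr, hanti, htr, htot, hcomp⟩, hconv⟩
    refine ⟨inferInstance, {g | QuotientGroup.mk' N g ∉ K ∧ r 1 (QuotientGroup.mk' N g)}, ?_, ?_, ?_, ?_⟩
    · rintro a ⟨ha, -⟩ h
      exact ha h
    · rintro a ⟨ha, ha'⟩ b ⟨hb, hb'⟩
      have h1 : r (QuotientGroup.mk' N a) (QuotientGroup.mk' N (a * b)) := by
        have := (hcomp _ _ (QuotientGroup.mk' N a) hb').1
        rwa [mul_one, ← map_mul] at this
      refine ⟨fun h => ha (hconv 1 K.one_mem _ h _ ha' h1), htr _ _ _ ha' h1⟩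
    · rintro a ⟨ha, ha'⟩ g
      refine ⟨?_, ?_⟩
      · intro h
        apply ha
        have h2 := hK.conj_mem _ h (QuotientGroup.mk' N g)
        have e : QuotientGroup.mk' N g * QuotientGroup.mk' N (g⁻¹ * a * g) * (QuotientGroup.mk' N g)⁻¹ =
            QuotientGroup.mk' N a := by
          rw [map_mul, map_mul, map_inv]
          group
        rwa [e] at h2
      · have h1 := (hcomp _ _ (QuotientGroup.mk' N g) ((hcomp _ _ (QuotientGroup.mk' N g)⁻¹ ha').1)).2
        rw [mul_one, inv_mul_cancel] at h1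
        rw [map_mul, map_mul, map_inv]
        exact h1
    · intro a ha
      have ha' : QuotientGroup.mk' N a ∉ K := ha
      rcases htot 1 (QuotientGroup.mk' N a) with h | h
      · exact Or.inl ⟨ha', h⟩
      · right
        refine ⟨?_, ?_⟩
        · rw [map_inv, K.inv_mem_iff]
          exact ha'
        · have h1 := (hcomp _ _ (QuotientGroup.mk' N a)⁻¹ h).1
          rwa [inv_mul_cancel, mul_one, ← map_inv] at h1

end OC
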